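import Mathlib

open Finset Classical

noncomputable section

namespace Pool.Agent.Results.MP_0c5457_lc.IntegralEquilibria

/-- A deterministic two-player concurrent game with a target set for each player. -/
structure Game (S α β : Type) where
  act₁ : S → Finset α
  act₂ : S → Finset β
  ne₁ : ∀ s, (act₁ s).Nonempty
  ne₂ : ∀ s, (act₂ s).Nonempty
  δ : S → α → β → S
  T₁ : Set S
  T₂ : Set S

/-- Behavioural strategies of a player with actions in `γ`: to every finite history (the list of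
the past triples (state, action of player 1, action of player 2), oldest first) and every current
state they attach a weight function on the actions. -/
abbrev Strat (S α β γ : Type) := List (S × α × β) → S → γ → ℝ

/-- The weights are a probability distribution on the action set of the current state. -/
def Valid {S α β γ : Type} (act : S → Finset γ) (σ : Strat S α β γ) : Prop :=
  ∀ h s, (∀ a, 0 ≤ σ h s a) ∧ (∀ a, a ∉ act s → σ h s a = 0) ∧ ∑ a ∈ act s, σ h s a = 1

/-- The strategy that remains after the first stage `e`. -/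
def shift {S α β γ : Type} (σ : Strat S α β γ) (e : S × α × β) : Strat S α β γ :=
  fun h => σ (e :: h)

variable {S α β : Type}

/-- Probability that the play from `s` visits `T` within `n` stages. -/
def reach (G : Game S α β) (T : Set S) :
    ℕ → Strat S α β α → Strat S α β β → S → ℝ
  | 0, _, _, s => if s ∈ T then 1 else 0
  | n + 1, σ, τ, s => if s ∈ T then 1 else
      ∑ a ∈ G.act₁ s, ∑ b ∈ G.act₂ s, σ [] s a * τ [] s b *
        reach G T n (shift σ (s, a, b)) (shift τ (s, a, b)) (G.δ s a b)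

/-- Probability that the play from `s` visits `T`. -/
def pay (G : Game S α β) (T : Set S) (σ : Strat S α β α) (τ : Strat S α β β) (s : S) : ℝ :=
  ⨆ n, reach G T n σ τ s

/-- Player 1 can guarantee to reach the target with probability at least `c`. -/
def Guar₁ (G : Game S α β) (c : ℝ) (s : S) : Prop :=
  ∃ σ : Strat S α β α, Valid G.act₁ σ ∧ ∀ τ : Strat S α β β, Valid G.act₂ τ →
    c ≤ pay G G.T₁ σ τ s

/-- Player 2 can guarantee to reach the target with probability at least `c`. -/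
def Guar₂ (G : Game S α β) (c : ℝ) (s : S) : Prop :=
  ∃ τ : Strat S α β β, Valid G.act₂ τ ∧ ∀ σ : Strat S α β α, Valid G.act₁ σ →
    c ≤ pay G G.T₂ σ τ s

/-- Nash equilibrium from `s`. -/
def Nash (G : Game S α β) (s : S) (σ : Strat S α β α) (τ : Strat S α β β) : Prop :=
  Valid G.act₁ σ ∧ Valid G.act₂ τ ∧
  (∀ σ' : Strat S α β α, Valid G.act₁ σ' → pay G G.T₁ σ' τ s ≤ pay G G.T₁ σ τ s) ∧
  (∀ τ' : Strat S α β β, Valid G.act₂ τ' → pay G G.T₂ σ τ' s ≤ pay G G.T₂ σ τ s)

/-- One step of some play. -/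
def Step (G : Game S α β) (s t : S) : Prop :=
  ∃ a ∈ G.act₁ s, ∃ b ∈ G.act₂ s, G.δ s a b = t

/-- Some play from `s` visits both targets. -/
def VisitsBoth (G : Game S α β) (s : S) : Prop :=
  ∃ t₁ ∈ G.T₁, ∃ t₂ ∈ G.T₂,
    (Relation.ReflTransGen (Step G) s t₁ ∧ Relation.ReflTransGen (Step G) t₁ t₂) ∨
    (Relation.ReflTransGen (Step G) s t₂ ∧ Relation.ReflTransGen (Step G) t₂ t₁)

/-- The value of player 1 is zero: no positive probability can be guaranteed. -/
def Zero₁ (G : Game S α β) : Set S := {s | ∀ c > 0, ¬ Guar₁ G c s}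

/-- The value of player 2 is zero. -/
def Zero₂ (G : Game S α β) : Set S := {s | ∀ c > 0, ¬ Guar₂ G c s}

/-- A step with an action of player 1 that keeps the value of player 2 at zero, whatever
player 2 does. -/
def Keep₁ (G : Game S α β) (s t : S) : Prop :=
  ∃ a ∈ G.act₁ s, (∀ b ∈ G.act₂ s, G.δ s a b ∈ Zero₂ G) ∧ ∃ b ∈ G.act₂ s, G.δ s a b = t

/-- A step with an action of player 2 that keeps the value of player 1 at zero. -/
def Keep₂ (G : Game S α β) (s t : S) : Prop :=
  ∃ b ∈ G.act₂ s, (∀ a ∈ G.act₁ s, G.δ s a b ∈ Zero₁ G) ∧ ∃ a ∈ G.act₁ s, G.δ s a b = t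

/-- The four situations: some play visits both targets; both values are zero; player 1 (player 2)
can be brought to the own target while the value of the opponent is kept at zero. -/
def Cond (G : Game S α β) (s : S) : Prop :=
  VisitsBoth G s ∨ (s ∈ Zero₁ G ∧ s ∈ Zero₂ G) ∨
    (s ∈ Zero₂ G ∧ ∃ t ∈ G.T₁, Relation.ReflTransGen (Keep₁ G) s t) ∨
    (s ∈ Zero₁ G ∧ ∃ t ∈ G.T₂, Relation.ReflTransGen (Keep₂ G) s t)

/-- A pure strategy, given by its choice function. -/
def pureS {γ : Type} (f : List (S × α × β) → S → γ) : Strat S α β γ :=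
  fun h s a => if a = f h s then 1 else 0

/-! ### basic facts -/

section basic
variable {γ : Type}

lemma Valid.shift {act : S → Finset γ} {σ : Strat S α β γ} (h : Valid act σ) (e : S × α × β) :
    Valid act (shift σ e) := fun l s => h (e :: l) s

lemma valid_pure {act : S → Finset γ} {f : List (S × α × β) → S → γ}
    (hf : ∀ h s, f h s ∈ act s) : Valid act (pureS f) := by
  intro h s
  refine ⟨fun a => ?_, fun a ha => ?_, ?_⟩
  · unfold pureS; split_ifs <;> norm_num
  · unfold pureS; rw [if_neg]; rintro rfl; exact ha (hf h s)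
  · unfold pureS; rw [Finset.sum_ite_eq' (act s) (f h s) (fun _ => (1:ℝ)), if_pos (hf h s)]

lemma avg_le {A : Finset γ} {p X : γ → ℝ} {c : ℝ} (hp : ∀ a, 0 ≤ p a) (h1 : ∑ a ∈ A, p a = 1)
    (h : ∀ a ∈ A, X a ≤ c) : ∑ a ∈ A, p a * X a ≤ c := by
  calc ∑ a ∈ A, p a * X a ≤ ∑ a ∈ A, p a * c :=
        Finset.sum_le_sum fun a ha => mul_le_mul_of_nonneg_left (h a ha) (hp a)
    _ = c := by rw [← Finset.sum_mul, h1, one_mul]

lemma avg_ge {A : Finset γ} {p X : γ → ℝ} {c : ℝ} (hp : ∀ a, 0 ≤ p a) (h1 : ∑ a ∈ A, p a = 1)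
    (h : ∀ a ∈ A, c ≤ X a) : c ≤ ∑ a ∈ A, p a * X a := by
  calc c = ∑ a ∈ A, p a * c := by rw [← Finset.sum_mul, h1, one_mul]
    _ ≤ ∑ a ∈ A, p a * X a :=
        Finset.sum_le_sum fun a ha => mul_le_mul_of_nonneg_left (h a ha) (hp a)

end basic

lemma reach_of_mem (G : Game S α β) {T : Set S} {s : S} (hs : s ∈ T) (n : ℕ)
    (σ : Strat S α β α) (τ : Strat S α β β) : reach G T n σ τ s = 1 := by
  cases n <;> simp [reach, hs]

lemma reach_succ (G : Game S α β) {T : Set S} {s : S} (hs : s ∉ T) (n : ℕ)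
    (σ : Strat S α β α) (τ : Strat S α β β) : reach G T (n + 1) σ τ s =
      ∑ a ∈ G.act₁ s, σ [] s a * ∑ b ∈ G.act₂ s, τ [] s b *
        reach G T n (shift σ (s, a, b)) (shift τ (s, a, b)) (G.δ s a b) := by
  simp only [reach, hs, if_false, Finset.mul_sum]
  refine Finset.sum_congr rfl fun a _ => Finset.sum_congr rfl fun b _ => ?_
  ring

lemma reach_succ' (G : Game S α β) {T : Set S} {s : S} (hs : s ∉ T) (n : ℕ)
    (σ : Strat S α β α) (τ : Strat S α β β) : reach G T (n + 1) σ τ s =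
      ∑ b ∈ G.act₂ s, τ [] s b * ∑ a ∈ G.act₁ s, σ [] s a *
        reach G T n (shift σ (s, a, b)) (shift τ (s, a, b)) (G.δ s a b) := by
  simp only [reach, hs, if_false, Finset.mul_sum]
  rw [Finset.sum_comm]
  refine Finset.sum_congr rfl fun a _ => Finset.sum_congr rfl fun b _ => ?_
  ring

lemma reach_nonneg (G : Game S α β) (T : Set S) (n : ℕ) : ∀ {σ : Strat S α β α}
    {τ : Strat S α β β} (s : S), Valid G.act₁ σ → Valid G.act₂ τ → 0 ≤ reach G T n σ τ s := by
  induction n with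
  | zero => intro σ τ s _ _; simp only [reach]; split_ifs <;> norm_num
  | succ n ih =>
    intro σ τ s hσ hτ
    by_cases hs : s ∈ T
    · rw [reach_of_mem G hs]; norm_num
    · rw [reach_succ G hs]
      refine Finset.sum_nonneg fun a _ => mul_nonneg ((hσ [] s).1 a) (Finset.sum_nonneg
        fun b _ => mul_nonneg ((hτ [] s).1 b) (ih _ (hσ.shift _) (hτ.shift _)))

lemma reach_le_one (G : Game S α β) (T : Set S) (n : ℕ) : ∀ {σ : Strat S α β α}
    {τ : Strat S α β β} (s : S), Valid G.act₁ σ → Valid G.act₂ τ → reach G T n σ τ s ≤ 1 := by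
  induction n with
  | zero => intro σ τ s _ _; simp only [reach]; split_ifs <;> norm_num
  | succ n ih =>
    intro σ τ s hσ hτ
    by_cases hs : s ∈ T
    · rw [reach_of_mem G hs]
    · rw [reach_succ G hs]
      exact avg_le (hσ [] s).1 (hσ [] s).2.2 fun a _ => avg_le (hτ [] s).1 (hτ [] s).2.2
        fun b _ => ih _ (hσ.shift _) (hτ.shift _)

lemma bdd (G : Game S α β) (T : Set S) {σ : Strat S α β α} {τ : Strat S α β β} (s : S)
    (hσ : Valid G.act₁ σ) (hτ : Valid G.act₂ τ) :
    BddAbove (Set.range fun n => reach G T n σ τ s) := by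
  refine ⟨1, ?_⟩
  rintro _ ⟨n, rfl⟩
  exact reach_le_one G T n s hσ hτ

lemma le_pay (G : Game S α β) (T : Set S) {σ : Strat S α β α} {τ : Strat S α β β} (s : S)
    (hσ : Valid G.act₁ σ) (hτ : Valid G.act₂ τ) (n : ℕ) :
    reach G T n σ τ s ≤ pay G T σ τ s := le_ciSup (bdd G T s hσ hτ) n

lemma pay_le (G : Game S α β) (T : Set S) {σ : Strat S α β α} {τ : Strat S α β β} {s : S}
    {c : ℝ} (h : ∀ n, reach G T n σ τ s ≤ c) : pay G T σ τ s ≤ c := ciSup_le h

lemma pay_nonneg (G : Game S α β) (T : Set S) {σ : Strat S α β α} {τ : Strat S α β β} (s : S)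
    (hσ : Valid G.act₁ σ) (hτ : Valid G.act₂ τ) : 0 ≤ pay G T σ τ s :=
  (reach_nonneg G T 0 s hσ hτ).trans (le_pay G T s hσ hτ 0)

lemma pay_le_one (G : Game S α β) (T : Set S) {σ : Strat S α β α} {τ : Strat S α β β} (s : S)
    (hσ : Valid G.act₁ σ) (hτ : Valid G.act₂ τ) : pay G T σ τ s ≤ 1 :=
  pay_le G T fun n => reach_le_one G T n s hσ hτ

/-! ### exchanging the players -/

/-- The same game with the players exchanged. -/
def Game.swap (G : Game S α β) : Game S β α where
  act₁ := G.act₂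
  act₂ := G.act₁
  ne₁ := G.ne₂
  ne₂ := G.ne₁
  δ := fun s b a => G.δ s a b
  T₁ := G.T₂
  T₂ := G.T₁

def sw (e : S × α × β) : S × β × α := (e.1, e.2.2, e.2.1)

def swapS {γ : Type} (σ : Strat S α β γ) : Strat S β α γ := fun h => σ (h.map sw)

lemma swapS_swapS {γ : Type} (σ : Strat S α β γ) : swapS (swapS σ) = σ := by
  funext h
  show σ ((h.map sw).map sw) = σ h
  rw [List.map_map]
  congr 1
  have : (sw ∘ sw : S × α × β → S × α × β) = id := by funext e; rfl
  rw [this, List.map_id]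

lemma swapS_valid {γ : Type} {act : S → Finset γ} {σ : Strat S α β γ} (h : Valid act σ) :
    Valid act (swapS σ) := fun l s => h (l.map sw) s

lemma swapS_shift {γ : Type} (σ : Strat S α β γ) (s : S) (a : α) (b : β) :
    shift (swapS σ) (s, b, a) = swapS (shift σ (s, a, b)) := rfl

lemma reach_swap (G : Game S α β) (T : Set S) (n : ℕ) : ∀ (σ : Strat S α β α)
    (τ : Strat S α β β) (s : S), reach G.swap T n (swapS τ) (swapS σ) s = reach G T n σ τ s := by
  induction n with
  | zero => intro σ τ s; rfl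
  | succ n ih =>
    intro σ τ s
    by_cases hs : s ∈ T
    · rw [reach_of_mem G hs, reach_of_mem G.swap hs]
    · rw [reach_succ G.swap hs, reach_succ' G hs]
      refine Finset.sum_congr rfl fun b _ => ?_
      congr 1
      refine Finset.sum_congr rfl fun a _ => ?_
      congr 1
      rw [swapS_shift, swapS_shift]
      exact ih _ _ _

lemma pay_swap (G : Game S α β) (T : Set S) (σ : Strat S α β α)
    (τ : Strat S α β β) (s : S) : pay G.swap T (swapS τ) (swapS σ) s = pay G T σ τ s := by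
  unfold pay
  congr 1
  funext n
  exact reach_swap G T n σ τ s

lemma guar_swap {G : Game S α β} {c : ℝ} {s : S} (h : Guar₂ G c s) : Guar₁ G.swap c s := by
  obtain ⟨τ, hτ, h⟩ := h
  refine ⟨swapS τ, swapS_valid hτ, fun σ hσ => ?_⟩
  have := h (swapS σ) (swapS_valid hσ)
  rwa [← pay_swap, swapS_swapS] at this

lemma guar_swap' {G : Game S α β} {c : ℝ} {s : S} (h : Guar₁ G.swap c s) : Guar₂ G c s := by
  obtain ⟨τ, hτ, h⟩ := h
  refine ⟨swapS τ, swapS_valid hτ, fun σ hσ => ?_⟩
  have := h (swapS σ) (swapS_valid hσ)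
  rwa [← pay_swap, swapS_swapS]

/-- existence of a pure Nash equilibrium -/
def HasPure (G : Game S α β) (s : S) : Prop :=
  ∃ (f : List (S × α × β) → S → α) (g : List (S × α × β) → S → β),
    (∀ h s, f h s ∈ G.act₁ s) ∧ (∀ h s, g h s ∈ G.act₂ s) ∧ Nash G s (pureS f) (pureS g)

lemma swapS_pure {γ : Type} (f : List (S × α × β) → S → γ) :
    swapS (pureS f) = pureS (fun h s => f (h.map sw) s) := rfl

lemma hasPure_swap {G : Game S α β} {s : S} (h : HasPure G.swap s) : HasPure G s := by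
  obtain ⟨f, g, hf, hg, h1, h2, h3, h4⟩ := h
  refine ⟨fun l t => g (l.map sw) t, fun l t => f (l.map sw) t, fun l t => hg _ t,
    fun l t => hf _ t, ?_⟩
  rw [← swapS_pure, ← swapS_pure]
  refine ⟨swapS_valid h2, swapS_valid h1, fun σ' hσ' => ?_, fun τ' hτ' => ?_⟩
  · have := h4 (swapS σ') (swapS_valid hσ')
    have e1 := pay_swap G G.T₁ σ' (swapS (pureS f)) s
    have e2 := pay_swap G G.T₁ (swapS (pureS g)) (swapS (pureS f)) s
    rw [swapS_swapS] at e1
    rw [swapS_swapS, swapS_swapS] at e2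
    rw [← e1, ← e2]
    exact this
  · have := h3 (swapS τ') (swapS_valid hτ')
    have e1 := pay_swap G G.T₂ (swapS (pureS g)) τ' s
    have e2 := pay_swap G G.T₂ (swapS (pureS g)) (swapS (pureS f)) s
    rw [swapS_swapS] at e1
    rw [swapS_swapS, swapS_swapS] at e2
    rw [← e1, ← e2]
    exact this

/-! ### never reaching a target -/

lemma reach_zero (G : Game S α β) (T I : Set S) (hIT : ∀ s ∈ I, s ∉ T) (n : ℕ) :
    ∀ (σ : Strat S α β α) (τ : Strat S α β β) (s : S), s ∈ I →
    (∀ s ∈ I, ∀ a ∈ G.act₁ s, ∀ b ∈ G.act₂ s,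
      G.δ s a b ∈ I ∨ (∀ h, σ h s a = 0) ∨ (∀ h, τ h s b = 0)) →
    reach G T n σ τ s = 0 := by
  induction n with
  | zero => intro σ τ s hs _; simp [reach, hIT s hs]
  | succ n ih =>
    intro σ τ s hs H
    rw [reach_succ G (hIT s hs)]
    refine Finset.sum_eq_zero fun a ha => ?_
    rw [Finset.mul_sum]
    refine Finset.sum_eq_zero fun b hb => ?_
    rcases H s hs a ha b hb with h | h | h
    · rw [ih (shift σ (s, a, b)) (shift τ (s, a, b)) _ h]
      · simp
      · intro s' hs' a' ha' b' hb'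
        rcases H s' hs' a' ha' b' hb' with h' | h' | h'
        · exact Or.inl h'
        · exact Or.inr (Or.inl fun l => h' _)
        · exact Or.inr (Or.inr fun l => h' _)
    · rw [h []]; simp
    · rw [h []]; simp

/-! ### uniform play -/

/-- The uniform strategy. -/
def unif {γ : Type} (act : S → Finset γ) : Strat S α β γ :=
  fun _ s a => if a ∈ act s then ((act s).card : ℝ)⁻¹ else 0

lemma unif_valid {γ : Type} {act : S → Finset γ} (hne : ∀ s, (act s).Nonempty) :
    Valid act (unif act : Strat S α β γ) := by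
  intro h s
  refine ⟨fun a => ?_, fun a ha => ?_, ?_⟩
  · unfold unif; split_ifs
    · positivity
    · exact le_rfl
  · unfold unif; rw [if_neg ha]
  · unfold unif
    rw [Finset.sum_congr rfl (fun a ha => if_pos ha), Finset.sum_const, nsmul_eq_mul]
    exact mul_inv_cancel₀ (by exact_mod_cast (hne s).card_pos.ne')

lemma exists_u [Finite S] {γ : Type} (act : S → Finset γ) (hne : ∀ s, (act s).Nonempty) :
    ∃ u : ℝ, 0 < u ∧ u ≤ 1 ∧ ∀ s, u ≤ ((act s).card : ℝ)⁻¹ := by
  obtain ⟨M, hM⟩ := (Set.finite_range fun s => (act s).card).bddAbove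
  refine ⟨((M : ℝ) + 1)⁻¹, by positivity, ?_, fun s => ?_⟩
  · apply inv_le_one_of_one_le₀
    have : (0:ℝ) ≤ M := by positivity
    linarith
  · have h1 : (act s).card ≤ M := hM ⟨s, rfl⟩
    have h2 : (0:ℝ) < (act s).card := by exact_mod_cast (hne s).card_pos
    apply inv_anti₀ h2
    have : ((act s).card : ℝ) ≤ M := by exact_mod_cast h1
    linarith

/-! ### value zero -/

/-- States from which player 1 reaches the target with positive probability, by stages. -/
def Att (G : Game S α β) : ℕ → Set S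
  | 0 => G.T₁
  | k + 1 => {s | s ∈ G.T₁ ∨ ∀ b ∈ G.act₂ s, ∃ a ∈ G.act₁ s, G.δ s a b ∈ Att G k}

lemma att_mono (G : Game S α β) : Monotone (Att G) := by
  apply monotone_nat_of_le_succ
  intro k
  induction k with
  | zero => intro s hs; exact Or.inl hs
  | succ k ih =>
    intro s hs
    rcases hs with hs | hs
    · exact Or.inl hs
    · refine Or.inr fun b hb => ?_
      obtain ⟨a, ha, h⟩ := hs b hb
      exact ⟨a, ha, ih h⟩

lemma att_reach (G : Game S α β) {u : ℝ} (h0 : 0 < u) (h1 : u ≤ 1)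
    (hu : ∀ s, u ≤ ((G.act₁ s).card : ℝ)⁻¹) (k : ℕ) : ∀ (s : S) (τ : Strat S α β β),
    s ∈ Att G k → Valid G.act₂ τ → u ^ k ≤ reach G G.T₁ k (unif G.act₁) τ s := by
  induction k with
  | zero => intro s τ hs _; rw [reach_of_mem G (show s ∈ G.T₁ from hs)]; simp
  | succ k ih =>
    intro s τ hs hτ
    by_cases hT : s ∈ G.T₁
    · rw [reach_of_mem G hT]; exact pow_le_one₀ h0.le h1
    · have hs' : ∀ b ∈ G.act₂ s, ∃ a ∈ G.act₁ s, G.δ s a b ∈ Att G k := by
        rcases hs with hs | hs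
        · exact absurd hs hT
        · exact hs
      rw [reach_succ' G hT]
      refine avg_ge (hτ [] s).1 (hτ [] s).2.2 fun b hb => ?_
      obtain ⟨a, ha, h⟩ := hs' b hb
      have hv : Valid G.act₁ (unif G.act₁ : Strat S α β α) := unif_valid G.ne₁
      have hX := ih (G.δ s a b) (shift τ (s, a, b)) h (hτ.shift _)
      calc u ^ (k + 1) = u * u ^ k := by ring
        _ ≤ (unif G.act₁ : Strat S α β α) [] s a * reach G G.T₁ k (unif G.act₁)
              (shift τ (s, a, b)) (G.δ s a b) := by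
            apply mul_le_mul _ hX (by positivity) ((hv [] s).1 a)
            unfold unif
            rw [if_pos ha]
            exact hu s
        _ ≤ _ := by
            refine Finset.single_le_sum (f := fun a => (unif G.act₁ : Strat S α β α) [] s a *
              reach G G.T₁ k (shift (unif G.act₁) (s, a, b)) (shift τ (s, a, b))
              (G.δ s a b)) (fun a' _ => mul_nonneg ((hv [] s).1 a')
              (reach_nonneg G _ k _ (hv.shift _) (hτ.shift _))) ha

lemma not_att_of_zero [Finite S] {G : Game S α β} {s : S} (h : ∀ c > 0, ¬ Guar₁ G c s) :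
    s ∉ ⋃ k, Att G k := by
  intro hs
  obtain ⟨k, hk⟩ := Set.mem_iUnion.1 hs
  obtain ⟨u, h0, h1, hu⟩ := exists_u G.act₁ G.ne₁
  refine h (u ^ k) (by positivity) ⟨unif G.act₁, unif_valid G.ne₁, fun τ hτ => ?_⟩
  exact (att_reach G h0 h1 hu k s τ hk hτ).trans (le_pay G _ s (unif_valid G.ne₁) hτ k)

lemma not_att_step {G : Game S α β} {s : S} (hs : s ∉ ⋃ k, Att G k) :
    s ∉ G.T₁ ∧ ∃ b ∈ G.act₂ s, ∀ a ∈ G.act₁ s, G.δ s a b ∉ ⋃ k, Att G k := by
  refine ⟨fun h => hs (Set.mem_iUnion.2 ⟨0, h⟩), ?_⟩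
  by_contra hcon
  push Not at hcon
  have : ∀ b, ∃ a k, b ∈ G.act₂ s → a ∈ G.act₁ s ∧ G.δ s a b ∈ Att G k := by
    intro b
    by_cases hb : b ∈ G.act₂ s
    · obtain ⟨a, ha, h⟩ := hcon b hb
      obtain ⟨k, hk⟩ := Set.mem_iUnion.1 h
      exact ⟨a, k, fun _ => ⟨ha, hk⟩⟩
    · exact ⟨(G.ne₁ s).choose, 0, fun h => absurd h hb⟩
  choose a k hak using this
  apply hs
  refine Set.mem_iUnion.2 ⟨(G.act₂ s).sup k + 1, Or.inr fun b hb => ⟨a b, (hak b hb).1, ?_⟩⟩
  exact att_mono G (Finset.le_sup hb) (hak b hb).2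

lemma case_zero [Finite S] {G : Game S α β} {s₀ : S} (h1 : ∀ c > 0, ¬ Guar₁ G c s₀)
    (h2 : ∀ c > 0, ¬ Guar₂ G c s₀) : HasPure G s₀ := by
  have m1 : s₀ ∉ ⋃ k, Att G k := not_att_of_zero h1
  have m2 : s₀ ∉ ⋃ k, Att G.swap k := not_att_of_zero fun c hc h => h2 c hc (guar_swap' h)
  have c1 : ∀ s, ∃ b ∈ G.act₂ s, s ∉ ⋃ k, Att G k →
      ∀ a ∈ G.act₁ s, G.δ s a b ∉ ⋃ k, Att G k := by
    intro s
    by_cases hs : s ∉ ⋃ k, Att G k
    · obtain ⟨-, b, hb, h⟩ := not_att_step hs
      exact ⟨b, hb, fun _ => h⟩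
    · exact ⟨(G.ne₂ s).choose, (G.ne₂ s).choose_spec, fun h => absurd h hs⟩
  have c2 : ∀ s, ∃ a ∈ G.act₁ s, s ∉ ⋃ k, Att G.swap k →
      ∀ b ∈ G.act₂ s, G.δ s a b ∉ ⋃ k, Att G.swap k := by
    intro s
    by_cases hs : s ∉ ⋃ k, Att G.swap k
    · obtain ⟨-, a, ha, h⟩ := not_att_step hs
      exact ⟨a, ha, fun _ => h⟩
    · exact ⟨(G.ne₁ s).choose, (G.ne₁ s).choose_spec, fun h => absurd h hs⟩
  choose g hg hg' using c1
  choose f hf hf' using c2
  refine ⟨fun _ => f, fun _ => g, fun _ => hf, fun _ => hg, valid_pure fun _ => hf,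
    valid_pure fun _ => hg, fun σ' hσ' => ?_, fun τ' hτ' => ?_⟩
  · refine le_trans (pay_le G _ fun n => le_of_eq ?_) (pay_nonneg G _ s₀
      (valid_pure fun _ => hf) (valid_pure fun _ => hg))
    refine reach_zero G _ {s | s ∉ ⋃ k, Att G k} (fun s hs => (not_att_step hs).1) n σ' _ s₀ m1 ?_
    intro s hs a ha b hb
    by_cases hbg : b = g s
    · subst hbg; exact Or.inl (hg' s hs a ha)
    · exact Or.inr (Or.inr fun h => if_neg hbg)
  · refine le_trans (pay_le G _ fun n => le_of_eq ?_) (pay_nonneg G _ s₀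
      (valid_pure fun _ => hf) (valid_pure fun _ => hg))
    refine reach_zero G _ {s | s ∉ ⋃ k, Att G.swap k} (fun s hs => (not_att_step hs).1) n _ τ'
      s₀ m2 ?_
    intro s hs a ha b hb
    by_cases haf : a = f s
    · subst haf; exact Or.inl (hf' s hs b hb)
    · exact Or.inr (Or.inl fun h => if_neg haf)

/-! ### plays visiting both targets -/

lemma reach_pure (G : Game S α β) {T : Set S} {s : S} (hs : s ∉ T) (n : ℕ)
    (f : List (S × α × β) → S → α) (g : List (S × α × β) → S → β)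
    (hf : f [] s ∈ G.act₁ s) (hg : g [] s ∈ G.act₂ s) :
    reach G T (n + 1) (pureS f) (pureS g) s =
      reach G T n (shift (pureS f) (s, f [] s, g [] s)) (shift (pureS g) (s, f [] s, g [] s))
        (G.δ s (f [] s) (g [] s)) := by
  rw [reach_succ G hs, Finset.sum_eq_single (f [] s), Finset.sum_eq_single (g [] s)]
  · unfold pureS; simp
  · intro b _ hb; unfold pureS; rw [if_neg hb]; simp
  · intro h; exact absurd hg h
  · intro a _ ha; unfold pureS; rw [if_neg ha]; simp
  · intro h; exact absurd hf h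

lemma path_strat {G : Game S α β} {s t : S} (h : Relation.ReflTransGen (Step G) s t)
    (f : List (S × α × β) → S → α) (g : List (S × α × β) → S → β)
    (hf : ∀ h s, f h s ∈ G.act₁ s) (hg : ∀ h s, g h s ∈ G.act₂ s) :
    ∃ (f' : List (S × α × β) → S → α) (g' : List (S × α × β) → S → β),
      (∀ h s, f' h s ∈ G.act₁ s) ∧ (∀ h s, g' h s ∈ G.act₂ s) ∧ ∃ k, ∀ (T : Set S) (N : ℕ),
        reach G T N (pureS f) (pureS g) t ≤ reach G T (N + k) (pureS f') (pureS g') s := by
  induction h using Relation.ReflTransGen.head_induction_on with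
  | refl => exact ⟨f, g, hf, hg, 0, fun T N => le_rfl⟩
  | head hst hrest ih =>
    rename_i s s₁
    obtain ⟨f', g', hf', hg', k, hk⟩ := ih
    obtain ⟨a, ha, b, hb, hab⟩ := hst
    let f'' : List (S × α × β) → S → α := fun h s' =>
      match h with
      | [] => if s' = s then a else f' [] s'
      | _ :: h' => f' h' s'
    let g'' : List (S × α × β) → S → β := fun h s' =>
      match h with
      | [] => if s' = s then b else g' [] s'
      | _ :: h' => g' h' s'
    have hf'' : ∀ h s, f'' h s ∈ G.act₁ s := by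
      intro h s'
      cases h with
      | nil =>
        show (if s' = s then a else f' [] s') ∈ G.act₁ s'
        split_ifs with h
        · subst h; exact ha
        · exact hf' _ _
      | cons e h' => exact hf' _ _
    have hg'' : ∀ h s, g'' h s ∈ G.act₂ s := by
      intro h s'
      cases h with
      | nil =>
        show (if s' = s then b else g' [] s') ∈ G.act₂ s'
        split_ifs with h
        · subst h; exact hb
        · exact hg' _ _
      | cons e h' => exact hg' _ _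
    have ea : f'' [] s = a := if_pos rfl
    have eb : g'' [] s = b := if_pos rfl
    refine ⟨f'', g'', hf'', hg'', k + 1, fun T N => (hk T N).trans ?_⟩
    by_cases hT : s ∈ T
    · rw [reach_of_mem G hT]
      exact reach_le_one G T _ _ (valid_pure hf') (valid_pure hg')
    · rw [← add_assoc, reach_pure G hT (N + k) f'' g'' (hf'' [] s) (hg'' [] s), ea, eb, hab]
      exact le_of_eq rfl

lemma case_both {G : Game S α β} {s₀ : S} (h : VisitsBoth G s₀) : HasPure G s₀ := by
  have key : ∀ (A B : Set S), (∃ t₁ ∈ A, ∃ t₂ ∈ B, Relation.ReflTransGen (Step G) s₀ t₁ ∧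
      Relation.ReflTransGen (Step G) t₁ t₂) →
      ∃ (f : List (S × α × β) → S → α) (g : List (S × α × β) → S → β),
        (∀ h s, f h s ∈ G.act₁ s) ∧ (∀ h s, g h s ∈ G.act₂ s) ∧
        1 ≤ pay G A (pureS f) (pureS g) s₀ ∧ 1 ≤ pay G B (pureS f) (pureS g) s₀ := by
    rintro A B ⟨t₁, h1, t₂, h2, p1, p2⟩
    obtain ⟨f1, g1, hf1, hg1, k1, hk1⟩ := path_strat p2 (fun _ s => (G.ne₁ s).choose)
      (fun _ s => (G.ne₂ s).choose) (fun _ s => (G.ne₁ s).choose_spec)
      (fun _ s => (G.ne₂ s).choose_spec)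
    obtain ⟨f2, g2, hf2, hg2, k2, hk2⟩ := path_strat p1 f1 g1 hf1 hg1
    refine ⟨f2, g2, hf2, hg2, ?_, ?_⟩
    · have := hk2 A 0
      rw [reach_of_mem G h1] at this
      exact this.trans (le_pay G A s₀ (valid_pure hf2) (valid_pure hg2) _)
    · have e1 := hk1 B 0
      rw [reach_of_mem G h2] at e1
      have e2 := hk2 B (0 + k1)
      exact (e1.trans e2).trans (le_pay G B s₀ (valid_pure hf2) (valid_pure hg2) _)
  have fin : ∃ (f : List (S × α × β) → S → α) (g : List (S × α × β) → S → β),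
        (∀ h s, f h s ∈ G.act₁ s) ∧ (∀ h s, g h s ∈ G.act₂ s) ∧
        1 ≤ pay G G.T₁ (pureS f) (pureS g) s₀ ∧ 1 ≤ pay G G.T₂ (pureS f) (pureS g) s₀ := by
    obtain ⟨t₁, h1, t₂, h2, h | h⟩ := h
    · exact key _ _ ⟨t₁, h1, t₂, h2, h⟩
    · obtain ⟨f, g, hf, hg, e1, e2⟩ := key G.T₂ G.T₁ ⟨t₂, h2, t₁, h1, h⟩
      exact ⟨f, g, hf, hg, e2, e1⟩
  obtain ⟨f, g, hf, hg, e1, e2⟩ := fin
  exact ⟨f, g, hf, hg, valid_pure hf, valid_pure hg,
    fun σ' hσ' => (pay_le_one G _ s₀ hσ' (valid_pure hg)).trans e1,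
    fun τ' hτ' => (pay_le_one G _ s₀ (valid_pure hf) hτ').trans e2⟩

/-! ### value one -/

/-- States from which player 1 can reach the target with probability arbitrarily close to one. -/
def W (G : Game S α β) : Set S := {s | ∀ ε > 0, Guar₁ G (1 - ε) s}

/-- States from which the target of player 1 can be reached while staying in `W`. -/
def Prog (G : Game S α β) : ℕ → Set S
  | 0 => G.T₁
  | k + 1 => {s | s ∈ Prog G k ∨ ∃ a ∈ G.act₁ s, (∀ b ∈ G.act₂ s, G.δ s a b ∈ W G) ∧
      ∃ b ∈ G.act₂ s, G.δ s a b ∈ Prog G k}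

lemma prog_mono (G : Game S α β) : Monotone (Prog G) :=
  monotone_nat_of_le_succ fun _ _ hs => Or.inl hs

lemma prog_path (G : Game S α β) (k : ℕ) : ∀ s ∈ Prog G k,
    ∃ t ∈ G.T₁, Relation.ReflTransGen (Step G) s t := by
  induction k with
  | zero => intro s hs; exact ⟨s, hs, Relation.ReflTransGen.refl⟩
  | succ k ih =>
    intro s hs
    rcases hs with hs | ⟨a, ha, -, b, hb, h⟩
    · exact ih s hs
    · obtain ⟨t, ht, p⟩ := ih _ h
      exact ⟨t, ht, Relation.ReflTransGen.head ⟨a, ha, b, hb, rfl⟩ p⟩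

/-- Replies of player 2 to the strategy of player 1: uniform as long as the play is in `U`,
then the reply `R`. -/
def resp (U : Set S) (un : S → β → ℝ) (R : Strat S α β α → S → Strat S α β β) :
    List (S × α × β) → Strat S α β α → S → β → ℝ
  | [], σ, s => if s ∈ U then un s else R σ s [] s
  | e :: h, σ, s => if e.1 ∈ U then resp U un R h (shift σ e) s else R σ e.1 (e :: h) s

/-- The reply as a strategy. -/
def respS (U : Set S) (un : S → β → ℝ) (R : Strat S α β α → S → Strat S α β β)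
    (σ : Strat S α β α) : Strat S α β β := fun h => resp U un R h σ

lemma resp_valid {G : Game S α β} {U : Set S} {un : S → β → ℝ}
    {R : Strat S α β α → S → Strat S α β β}
    (hun : ∀ s, (∀ a, 0 ≤ un s a) ∧ (∀ a, a ∉ G.act₂ s → un s a = 0) ∧
      ∑ a ∈ G.act₂ s, un s a = 1)
    (hR : ∀ σ s, Valid G.act₂ (R σ s)) (σ : Strat S α β α) :
    Valid G.act₂ (respS U un R σ) := by
  intro h
  induction h generalizing σ with
  | nil =>
    intro s
    show (∀ a, 0 ≤ (if s ∈ U then un s else R σ s [] s) a) ∧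
      (∀ a, a ∉ G.act₂ s → (if s ∈ U then un s else R σ s [] s) a = 0) ∧
      ∑ a ∈ G.act₂ s, (if s ∈ U then un s else R σ s [] s) a = 1
    by_cases hs : s ∈ U
    · simp only [hs, if_true]; exact hun s
    · simp only [hs, if_false]; exact hR σ s [] s
  | cons e h ih =>
    intro s
    show (∀ a, 0 ≤ (if e.1 ∈ U then resp U un R h (shift σ e) s else R σ e.1 (e :: h) s) a) ∧
      (∀ a, a ∉ G.act₂ s →
        (if e.1 ∈ U then resp U un R h (shift σ e) s else R σ e.1 (e :: h) s) a = 0) ∧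
      ∑ a ∈ G.act₂ s,
        (if e.1 ∈ U then resp U un R h (shift σ e) s else R σ e.1 (e :: h) s) a = 1
    by_cases hs : e.1 ∈ U
    · simp only [hs, if_true]; exact ih (shift σ e) s
    · simp only [hs, if_false]; exact hR σ e.1 (e :: h) s

lemma respS_shift {U : Set S} {un : S → β → ℝ} {R : Strat S α β α → S → Strat S α β β}
    (σ : Strat S α β α) {s : S} (hs : s ∈ U) (a : α) (b : β) :
    shift (respS U un R σ) (s, a, b) = respS U un R (shift σ (s, a, b)) := by
  funext h
  show resp U un R ((s, a, b) :: h) σ = resp U un R h (shift σ (s, a, b))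
  funext s'
  simp [resp, hs]

lemma reach_respS (G : Game S α β) (T : Set S) {U : Set S} {un : S → β → ℝ}
    {R : Strat S α β α → S → Strat S α β β} (σ : Strat S α β α) {s : S} (hs : s ∉ U) (n : ℕ) :
    reach G T n σ (respS U un R σ) s = reach G T n σ (R σ s) s := by
  cases n with
  | zero => rfl
  | succ n =>
    by_cases hT : s ∈ T
    · rw [reach_of_mem G hT, reach_of_mem G hT]
    · rw [reach_succ G hT, reach_succ G hT]
      refine Finset.sum_congr rfl fun a _ => ?_
      congr 1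
      refine Finset.sum_congr rfl fun b _ => ?_
      have e1 : respS U un R σ [] s = R σ s [] s := by
        show resp U un R [] σ s = _
        simp [resp, hs]
      have e2 : shift (respS U un R σ) (s, a, b) = shift (R σ s) (s, a, b) := by
        funext h
        show resp U un R ((s, a, b) :: h) σ = R σ s ((s, a, b) :: h)
        funext s'
        simp [resp, hs]
      rw [e1, e2]

lemma guar_mono {G : Game S α β} {c c' : ℝ} {s : S} (h : c' ≤ c) (hc : Guar₁ G c s) :
    Guar₁ G c' s := by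
  obtain ⟨σ, hσ, H⟩ := hc
  exact ⟨σ, hσ, fun τ hτ => h.trans (H τ hτ)⟩

lemma W_sub [Finite S] (G : Game S α β) : W G ⊆ ⋃ k, Prog G k := by
  intro s₀ hs₀
  by_contra hns₀
  have : Nonempty S := ⟨s₀⟩
  -- a uniform gap outside `W`
  have hgap : ∃ ε₀ : ℝ, 0 < ε₀ ∧ ε₀ ≤ 1 ∧ ∀ s, s ∉ W G → ¬ Guar₁ G (1 - ε₀) s := by
    have : ∀ s, ∃ e : ℝ, 0 < e ∧ e ≤ 1 ∧ (s ∉ W G → ¬ Guar₁ G (1 - e) s) := by
      intro s
      by_cases hs : s ∈ W G
      · exact ⟨1, one_pos, le_rfl, fun h => absurd hs h⟩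
      · have h' : ∃ ε > 0, ¬ Guar₁ G (1 - ε) s := by
          by_contra hcon
          push Not at hcon
          exact hs hcon
        obtain ⟨ε, hε, h⟩ := h'
        refine ⟨min ε 1, by positivity, min_le_right _ _, fun _ hg => h (guar_mono ?_ hg)⟩
        have := min_le_left ε 1
        linarith
    choose e he0 he1 he using this
    obtain ⟨x, hx⟩ := Finite.exists_min e
    refine ⟨e x, he0 x, he1 x, fun s hs hg => he s hs (guar_mono ?_ hg)⟩
    have := hx s
    linarith
  obtain ⟨ε₀, hε0, hε1, hε⟩ := hgap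
  obtain ⟨u, hu0, hu1, hu⟩ := exists_u G.act₂ G.ne₂
  have hRex : ∀ (σ : Strat S α β α) (s : S), ∃ τ : Strat S α β β, Valid G.act₂ τ ∧
      (Valid G.act₁ σ → s ∉ W G → pay G G.T₁ σ τ s < 1 - ε₀) := by
    intro σ s
    by_cases h : Valid G.act₁ σ ∧ s ∉ W G
    · by_contra hcon
      push Not at hcon
      refine hε s h.2 ⟨σ, h.1, fun τ hτ => ?_⟩
      exact (hcon τ hτ).2.2
    · exact ⟨unif G.act₂, unif_valid G.ne₂, fun h1 h2 => absurd ⟨h1, h2⟩ h⟩
  choose R hRv hR using hRex
  set U : Set S := {s | s ∈ W G ∧ s ∉ ⋃ k, Prog G k} with hU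
  let un : S → β → ℝ := fun s => (unif G.act₂ : Strat S α β β) [] s
  have hun : ∀ s, (∀ a, 0 ≤ un s a) ∧ (∀ a, a ∉ G.act₂ s → un s a = 0) ∧
      ∑ a ∈ G.act₂ s, un s a = 1 := fun s => (unif_valid G.ne₂ : Valid G.act₂ _) [] s
  have hval : ∀ σ : Strat S α β α, Valid G.act₂ (respS U un R σ) := resp_valid hun hRv
  have key : ∀ (n : ℕ) (σ : Strat S α β α) (s : S), Valid G.act₁ σ → s ∈ U →
      reach G G.T₁ n σ (respS U un R σ) s ≤ 1 - u * ε₀ := by
    have hpos : 0 ≤ 1 - u * ε₀ := by nlinarith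
    intro n
    induction n with
    | zero =>
      intro σ s _ hs
      have hT : s ∉ G.T₁ := fun h => hs.2 (Set.mem_iUnion.2 ⟨0, h⟩)
      simp only [reach, hT, if_false]
      exact hpos
    | succ n ih =>
      intro σ s hσ hs
      have hT : s ∉ G.T₁ := fun h => hs.2 (Set.mem_iUnion.2 ⟨0, h⟩)
      rw [reach_succ G hT]
      refine avg_le (hσ [] s).1 (hσ [] s).2.2 fun a ha => ?_
      have hun' : respS U un R σ [] s = un s := by
        show resp U un R [] σ s = _
        simp [resp, hs]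
      rw [hun']
      have hX : ∀ b, reach G G.T₁ n (shift σ (s, a, b)) (shift (respS U un R σ) (s, a, b))
          (G.δ s a b) = reach G G.T₁ n (shift σ (s, a, b)) (respS U un R (shift σ (s, a, b)))
          (G.δ s a b) := by
        intro b; rw [respS_shift σ hs a b]
      by_cases hall : ∀ b ∈ G.act₂ s, G.δ s a b ∈ W G
      · refine avg_le (hun s).1 (hun s).2.2 fun b hb => ?_
        rw [hX b]
        refine ih _ _ (hσ.shift _) ⟨hall b hb, fun hD => hs.2 ?_⟩
        obtain ⟨k, hk⟩ := Set.mem_iUnion.1 hD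
        exact Set.mem_iUnion.2 ⟨k + 1, Or.inr ⟨a, ha, hall, b, hb, hk⟩⟩
      · push Not at hall
        obtain ⟨b₀, hb₀, hW⟩ := hall
        have hb0 : reach G G.T₁ n (shift σ (s, a, b₀)) (respS U un R (shift σ (s, a, b₀)))
            (G.δ s a b₀) ≤ 1 - ε₀ := by
          rw [reach_respS G _ _ (fun h => hW h.1) n]
          exact (le_pay G _ _ (hσ.shift _) (hRv _ _) n).trans
            (hR (shift σ (s, a, b₀)) (G.δ s a b₀) (hσ.shift _) hW).le
        calc ∑ b ∈ G.act₂ s, un s b * reach G G.T₁ n (shift σ (s, a, b))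
              (shift (respS U un R σ) (s, a, b)) (G.δ s a b)
            ≤ ∑ b ∈ G.act₂ s, un s b * (1 - if b = b₀ then ε₀ else 0) := by
              refine Finset.sum_le_sum fun b _ => mul_le_mul_of_nonneg_left ?_ ((hun s).1 b)
              rw [hX b]
              split_ifs with hbb
              · subst hbb; exact hb0
              · rw [sub_zero]
                exact reach_le_one G _ n _ (hσ.shift _) (hval _)
          _ = 1 - un s b₀ * ε₀ := by
              simp only [mul_sub, mul_one, mul_ite, mul_zero]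
              rw [Finset.sum_sub_distrib, (hun s).2.2, Finset.sum_ite_eq' (G.act₂ s) b₀
                (fun b => un s b * ε₀), if_pos hb₀]
          _ ≤ 1 - u * ε₀ := by
              have : u ≤ un s b₀ := by
                show u ≤ unif G.act₂ [] s b₀
                unfold unif
                rw [if_pos hb₀]
                exact hu s
              nlinarith
  have hε2 : 0 < u * ε₀ / 2 := by positivity
  obtain ⟨σ, hσ, hs⟩ := hs₀ (u * ε₀ / 2) hε2
  have h1 := hs (respS U un R σ) (hval σ)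
  have h2 : pay G G.T₁ σ (respS U un R σ) s₀ ≤ 1 - u * ε₀ :=
    pay_le G _ fun n => key n σ s₀ hσ ⟨hs₀, hns₀⟩
  linarith

/-! ### both targets -/

lemma reach_mono_succ (G : Game S α β) (T : Set S) (n : ℕ) : ∀ {σ : Strat S α β α}
    {τ : Strat S α β β} (s : S), Valid G.act₁ σ → Valid G.act₂ τ →
    reach G T n σ τ s ≤ reach G T (n + 1) σ τ s := by
  induction n with
  | zero =>
    intro σ τ s hσ hτ
    by_cases hs : s ∈ T
    · rw [reach_of_mem G hs, reach_of_mem G hs]
    · have : reach G T 0 σ τ s = 0 := by simp [reach, hs]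
      rw [this]
      exact reach_nonneg G T _ s hσ hτ
  | succ n ih =>
    intro σ τ s hσ hτ
    by_cases hs : s ∈ T
    · rw [reach_of_mem G hs, reach_of_mem G hs]
    · rw [reach_succ G hs n, reach_succ G hs (n + 1)]
      exact Finset.sum_le_sum fun a _ => mul_le_mul_of_nonneg_left (Finset.sum_le_sum
        fun b _ => mul_le_mul_of_nonneg_left (ih _ (hσ.shift _) (hτ.shift _)) ((hτ [] s).1 b))
        ((hσ [] s).1 a)

lemma reach_unreach (G : Game S α β) (T : Set S) (n : ℕ) (σ : Strat S α β α)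
    (τ : Strat S α β β) (s : S) (h : ∀ t ∈ T, ¬ Relation.ReflTransGen (Step G) s t) :
    reach G T n σ τ s = 0 := by
  refine reach_zero G T {s | ∀ t ∈ T, ¬ Relation.ReflTransGen (Step G) s t}
    (fun s hs hT => hs s hT Relation.ReflTransGen.refl) n σ τ s h ?_
  intro s hs a ha b hb
  left
  intro t ht p
  exact hs t ht (Relation.ReflTransGen.head ⟨a, ha, b, hb, rfl⟩ p)

lemma not_both_step {G : Game S α β} {s t : S} (h : ¬ VisitsBoth G s) (hst : Step G s t) :
    ¬ VisitsBoth G t := by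
  rintro ⟨t₁, h1, t₂, h2, ⟨p, q⟩ | ⟨p, q⟩⟩
  · exact h ⟨t₁, h1, t₂, h2, Or.inl ⟨Relation.ReflTransGen.head hst p, q⟩⟩
  · exact h ⟨t₁, h1, t₂, h2, Or.inr ⟨Relation.ReflTransGen.head hst p, q⟩⟩

lemma reach_sum (G : Game S α β) (n : ℕ) : ∀ {σ : Strat S α β α}
    {τ : Strat S α β β} (s : S), Valid G.act₁ σ → Valid G.act₂ τ → ¬ VisitsBoth G s →
    reach G G.T₁ n σ τ s + reach G G.T₂ n σ τ s ≤ 1 := by
  induction n with
  | zero =>
    intro σ τ s _ _ h
    by_cases h1 : s ∈ G.T₁
    · have h2 : s ∉ G.T₂ := fun h2 => h ⟨s, h1, s, h2, Or.inl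
        ⟨Relation.ReflTransGen.refl, Relation.ReflTransGen.refl⟩⟩
      simp [reach, h1, h2]
    · by_cases h2 : s ∈ G.T₂ <;> simp [reach, h1, h2]
  | succ n ih =>
    intro σ τ s hσ hτ h
    by_cases h1 : s ∈ G.T₁
    · rw [reach_of_mem G h1, reach_unreach G G.T₂ (n + 1) σ τ s (fun t ht p =>
        h ⟨s, h1, t, ht, Or.inl ⟨Relation.ReflTransGen.refl, p⟩⟩)]
      norm_num
    · by_cases h2 : s ∈ G.T₂
      · rw [reach_of_mem G h2, reach_unreach G G.T₁ (n + 1) σ τ s (fun t ht p =>
          h ⟨t, ht, s, h2, Or.inr ⟨Relation.ReflTransGen.refl, p⟩⟩)]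
        norm_num
      · rw [reach_succ G h1, reach_succ G h2, ← Finset.sum_add_distrib]
        have : ∀ a ∈ G.act₁ s, (σ [] s a * ∑ b ∈ G.act₂ s, τ [] s b *
            reach G G.T₁ n (shift σ (s, a, b)) (shift τ (s, a, b)) (G.δ s a b)) +
            (σ [] s a * ∑ b ∈ G.act₂ s, τ [] s b *
            reach G G.T₂ n (shift σ (s, a, b)) (shift τ (s, a, b)) (G.δ s a b)) =
            σ [] s a * ∑ b ∈ G.act₂ s, τ [] s b *
            (reach G G.T₁ n (shift σ (s, a, b)) (shift τ (s, a, b)) (G.δ s a b) +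
            reach G G.T₂ n (shift σ (s, a, b)) (shift τ (s, a, b)) (G.δ s a b)) := by
          intro a _
          rw [← mul_add, ← Finset.sum_add_distrib]
          congr 1
          refine Finset.sum_congr rfl fun b _ => ?_
          ring
        rw [Finset.sum_congr rfl this]
        refine avg_le (hσ [] s).1 (hσ [] s).2.2 fun a ha => avg_le (hτ [] s).1 (hτ [] s).2.2
          fun b hb => ih _ (hσ.shift _) (hτ.shift _) (not_both_step h ⟨a, ha, b, hb, rfl⟩)

lemma pay_sum {G : Game S α β} {σ : Strat S α β α} {τ : Strat S α β β} {s : S}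
    (hσ : Valid G.act₁ σ) (hτ : Valid G.act₂ τ) (h : ¬ VisitsBoth G s) :
    pay G G.T₁ σ τ s + pay G G.T₂ σ τ s ≤ 1 := by
  have hmono : ∀ T, Monotone fun n => reach G T n σ τ s := fun T =>
    monotone_nat_of_le_succ fun n => reach_mono_succ G T n s hσ hτ
  have h1 : ∀ n, reach G G.T₁ n σ τ s ≤ 1 - pay G G.T₂ σ τ s := by
    intro n
    have h2 : ∀ m, reach G G.T₂ m σ τ s ≤ 1 - reach G G.T₁ n σ τ s := by
      intro m
      have e1 := hmono G.T₂ (le_max_left m n)
      have e2 := hmono G.T₁ (le_max_right m n)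
      have e3 := reach_sum G (max m n) s hσ hτ h
      simp only at e1 e2
      linarith
    have h3 := pay_le G G.T₂ h2
    linarith
  have := pay_le G G.T₁ h1
  linarith

/-! ### the value zero sets -/

lemma zero₂_swap (G : Game S α β) : Zero₁ G.swap = Zero₂ G := by
  ext s
  exact ⟨fun h c hc hg => h c hc (guar_swap hg), fun h c hc hg => h c hc (guar_swap' hg)⟩

lemma keep_swap (G : Game S α β) : Keep₂ G.swap = Keep₁ G := by
  funext s t
  simp only [Keep₂, Keep₁, zero₂_swap]
  rfl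

lemma zero_iff [Finite S] (G : Game S α β) (s : S) : s ∈ Zero₁ G ↔ s ∉ ⋃ k, Att G k := by
  refine ⟨fun h => not_att_of_zero h, fun h c hc hg => ?_⟩
  obtain ⟨σ, hσ, H⟩ := hg
  have c1 : ∀ s, ∃ b ∈ G.act₂ s, s ∉ ⋃ k, Att G k →
      ∀ a ∈ G.act₁ s, G.δ s a b ∉ ⋃ k, Att G k := by
    intro s
    by_cases hs : s ∉ ⋃ k, Att G k
    · obtain ⟨-, b, hb, h⟩ := not_att_step hs
      exact ⟨b, hb, fun _ => h⟩
    · exact ⟨(G.ne₂ s).choose, (G.ne₂ s).choose_spec, fun h => absurd h hs⟩
  choose g hg hg' using c1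
  have h1 := H (pureS fun _ => g) (valid_pure fun _ => hg)
  have h2 : pay G G.T₁ σ (pureS fun _ => g) s ≤ 0 := by
    refine pay_le G _ fun n => le_of_eq ?_
    refine reach_zero G _ {s | s ∉ ⋃ k, Att G k} (fun s hs => (not_att_step hs).1) n σ _ s h ?_
    intro s hs a ha b hb
    by_cases hbg : b = g s
    · subst hbg; exact Or.inl (hg' s hs a ha)
    · exact Or.inr (Or.inr fun h => if_neg hbg)
  linarith

lemma zero_step [Finite S] {G : Game S α β} {s : S} (hs : s ∈ Zero₁ G) :
    s ∉ G.T₁ ∧ ∃ b ∈ G.act₂ s, ∀ a ∈ G.act₁ s, G.δ s a b ∈ Zero₁ G := by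
  obtain ⟨h1, b, hb, h⟩ := not_att_step ((zero_iff G s).1 hs)
  exact ⟨h1, b, hb, fun a ha => (zero_iff G _).2 (h a ha)⟩

/-- States from which player 2 can be brought to the target in `k` steps while the value of
player 1 stays zero. -/
def Pr (G : Game S α β) : ℕ → Set S
  | 0 => G.T₂
  | k + 1 => {s | s ∈ Pr G k ∨ ∃ b ∈ G.act₂ s, (∀ a ∈ G.act₁ s, G.δ s a b ∈ Zero₁ G) ∧
      ∃ a ∈ G.act₁ s, G.δ s a b ∈ Pr G k}

lemma pr_mono (G : Game S α β) : Monotone (Pr G) :=
  monotone_nat_of_le_succ fun _ _ hs => Or.inl hs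

lemma case_keep [Finite S] {G : Game S α β} {s₀ : S} (h0 : s₀ ∈ Zero₁ G)
    (h : ∃ t ∈ G.T₂, Relation.ReflTransGen (Keep₂ G) s₀ t) : HasPure G s₀ := by
  have hmem : ∃ k, s₀ ∈ Pr G k := by
    obtain ⟨t, ht, p⟩ := h
    clear h0
    induction p using Relation.ReflTransGen.head_induction_on with
    | refl => exact ⟨0, ht⟩
    | head hst _ ih =>
      obtain ⟨k, hk⟩ := ih
      obtain ⟨b, hb, hz, a, ha, e⟩ := hst
      exact ⟨k + 1, Or.inr ⟨b, hb, hz, a, ha, e ▸ hk⟩⟩
  have hex : ∀ s, ∃ a ∈ G.act₁ s, ∃ b ∈ G.act₂ s,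
      (s ∈ Zero₁ G → ∀ a' ∈ G.act₁ s, G.δ s a' b ∈ Zero₁ G) ∧
      ∀ k, s ∈ Pr G (k + 1) → s ∉ Pr G k → G.δ s a b ∈ Pr G k := by
    intro s
    by_cases hk : ∃ k, s ∈ Pr G (k + 1) ∧ s ∉ Pr G k
    · obtain ⟨k₀, h1, h2⟩ := hk
      rcases h1 with h1 | ⟨b, hb, hz, a, ha, hB⟩
      · exact absurd h1 h2
      · refine ⟨a, ha, b, hb, fun _ => hz, fun k e1 e2 => ?_⟩
        have h1' : s ∈ Pr G (k₀ + 1) := Or.inr ⟨b, hb, hz, a, ha, hB⟩
        have : k = k₀ := by
          rcases lt_trichotomy k k₀ with hlt | heq | hgt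
          · exact absurd (pr_mono G (show k + 1 ≤ k₀ by omega) e1) h2
          · exact heq
          · exact absurd (pr_mono G (show k₀ + 1 ≤ k by omega) h1') e2
        subst this
        exact hB
    · push Not at hk
      by_cases hz : s ∈ Zero₁ G
      · obtain ⟨-, b, hb, hb'⟩ := zero_step hz
        exact ⟨(G.ne₁ s).choose, (G.ne₁ s).choose_spec, b, hb, fun _ => hb',
          fun k e1 e2 => absurd (hk k e1) e2⟩
      · exact ⟨(G.ne₁ s).choose, (G.ne₁ s).choose_spec, (G.ne₂ s).choose,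
          (G.ne₂ s).choose_spec, fun h => absurd h hz, fun k e1 e2 => absurd (hk k e1) e2⟩
  choose f hf g hg hz hfg using hex
  have hvf : Valid G.act₁ (pureS (fun _ => f) : Strat S α β α) := valid_pure fun _ => hf
  have hvg : Valid G.act₂ (pureS (fun _ => g) : Strat S α β β) := valid_pure fun _ => hg
  have hone : ∀ k, ∀ s ∈ Pr G k, ∀ n, k ≤ n →
      reach G G.T₂ n (pureS (fun _ => f)) (pureS (fun _ => g)) s = 1 := by
    intro k
    induction k with
    | zero => intro s hs n _; exact reach_of_mem G (show s ∈ G.T₂ from hs) n _ _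
    | succ k ih =>
      intro s hs n hn
      by_cases hk : s ∈ Pr G k
      · exact ih s hk n (by omega)
      · have hT : s ∉ G.T₂ := fun h => hk (pr_mono G (Nat.zero_le k) h)
        obtain ⟨m, rfl⟩ : ∃ m, n = m + 1 := ⟨n - 1, by omega⟩
        rw [reach_pure G hT m (fun _ => f) (fun _ => g) (hf s) (hg s)]
        exact ih _ (hfg s k hs hk) m (by omega)
  obtain ⟨k, hk⟩ := hmem
  refine ⟨fun _ => f, fun _ => g, fun _ => hf, fun _ => hg, hvf, hvg, fun σ' hσ' => ?_,
    fun τ' hτ' => ?_⟩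
  · refine le_trans (pay_le G _ fun n => le_of_eq ?_) (pay_nonneg G _ s₀ hvf hvg)
    refine reach_zero G _ (Zero₁ G) (fun s hs => (zero_step hs).1) n σ' _ s₀ h0 ?_
    intro s hs a ha b hb
    by_cases hbg : b = g s
    · subst hbg; exact Or.inl (hz s hs a ha)
    · exact Or.inr (Or.inr fun _ => if_neg hbg)
  · refine (pay_le_one G _ s₀ hvf hτ').trans ?_
    rw [← hone k s₀ hk k le_rfl]
    exact le_pay G _ s₀ hvf hvg k

lemma visitsBoth_swap {G : Game S α β} {s : S} (h : VisitsBoth G.swap s) : VisitsBoth G s := by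
  have hmono : ∀ x y, Relation.ReflTransGen (Step G.swap) x y →
      Relation.ReflTransGen (Step G) x y := by
    intro x y hxy
    refine Relation.ReflTransGen.mono ?_ x y hxy
    rintro p q ⟨b, hb', a, ha, e⟩
    exact ⟨a, ha, b, hb', e⟩
  obtain ⟨t₁, h1, t₂, h2, hh⟩ := h
  rcases hh with ⟨p, q⟩ | ⟨p, q⟩
  · exact ⟨t₂, h2, t₁, h1, Or.inr ⟨hmono _ _ p, hmono _ _ q⟩⟩
  · exact ⟨t₂, h2, t₁, h1, Or.inl ⟨hmono _ _ p, hmono _ _ q⟩⟩

lemma swap_swap (G : Game S α β) : G.swap.swap = G := rfl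

lemma cond_swap {G : Game S α β} {s : S} (h : Cond G.swap s) : Cond G s := by
  rcases h with h | h | h | h
  · exact Or.inl (visitsBoth_swap h)
  · right; left
    have e : Zero₂ G.swap = Zero₁ G := (zero₂_swap G.swap).symm
    rw [e, zero₂_swap] at h
    exact ⟨h.2, h.1⟩
  · right; right; right
    have e : Zero₂ G.swap = Zero₁ G := (zero₂_swap G.swap).symm
    have e2 : Keep₁ G.swap = Keep₂ G := (keep_swap G.swap).symm
    rw [e, e2] at h
    exact h
  · right; right; left
    rw [zero₂_swap, keep_swap] at h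
    exact h

lemma cond_hasPure [Finite S] {G : Game S α β} {s : S} (h : Cond G s) : HasPure G s := by
  rcases h with h | h | h | h
  · exact case_both h
  · exact case_zero h.1 h.2
  · refine hasPure_swap (case_keep (G := G.swap) ?_ ?_)
    · rw [zero₂_swap]; exact h.1
    · rw [keep_swap]; exact h.2
  · exact case_keep h.1 h.2

/-! ### value one -/

lemma zero_of_W {G : Game S α β} {s : S} (h : s ∈ W G) (hnb : ¬ VisitsBoth G s) :
    s ∈ Zero₂ G := by
  rintro c hc ⟨τ, hτ, H⟩
  obtain ⟨σ, hσ, K⟩ := h (c / 2) (by positivity)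
  have h1 := H σ hσ
  have h2 := K τ hτ
  have h3 := pay_sum hσ hτ hnb
  linarith

lemma cond_of_W [Finite S] {G : Game S α β} {s₀ : S} (h : s₀ ∈ W G) : Cond G s₀ := by
  by_cases hnb : VisitsBoth G s₀
  · exact Or.inl hnb
  right; right; left
  refine ⟨zero_of_W h hnb, ?_⟩
  obtain ⟨k, hk⟩ := Set.mem_iUnion.1 (W_sub G h)
  clear h
  induction k generalizing s₀ with
  | zero => exact ⟨s₀, hk, Relation.ReflTransGen.refl⟩
  | succ k ih =>
    rcases hk with hk | ⟨a, ha, hA, b, hb, hB⟩
    · exact ih hnb hk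
    · obtain ⟨t, ht, p⟩ := ih (not_both_step hnb ⟨a, ha, b, hb, rfl⟩) hB
      refine ⟨t, ht, Relation.ReflTransGen.head ⟨a, ha, fun b' hb' => ?_, b, hb, rfl⟩ p⟩
      exact zero_of_W (hA b' hb') (not_both_step hnb ⟨a, ha, b', hb', rfl⟩)

/-! ### payoffs zero and one -/

lemma pure_reach (G : Game S α β) (T : Set S) (n : ℕ) : ∀ (f : List (S × α × β) → S → α)
    (g : List (S × α × β) → S → β) (s : S), (∀ h s, f h s ∈ G.act₁ s) →
    (∀ h s, g h s ∈ G.act₂ s) →
    reach G T n (pureS f) (pureS g) s = 0 ∨ reach G T n (pureS f) (pureS g) s = 1 := by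
  induction n with
  | zero => intro f g s _ _; by_cases hs : s ∈ T <;> simp [reach, hs]
  | succ n ih =>
    intro f g s hf hg
    by_cases hs : s ∈ T
    · right; exact reach_of_mem G hs _ _ _
    · rw [reach_pure G hs n f g (hf _ _) (hg _ _)]
      exact ih (fun h => f ((s, f [] s, g [] s) :: h)) (fun h => g ((s, f [] s, g [] s) :: h)) _
        (fun h => hf _) (fun h => hg _)

lemma pure_pay {G : Game S α β} (T : Set S) {f : List (S × α × β) → S → α}
    {g : List (S × α × β) → S → β} (s : S) (hf : ∀ h s, f h s ∈ G.act₁ s)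
    (hg : ∀ h s, g h s ∈ G.act₂ s) :
    pay G T (pureS f) (pureS g) s = 0 ∨ pay G T (pureS f) (pureS g) s = 1 := by
  by_cases h : ∃ n, reach G T n (pureS f) (pureS g) s = 1
  · right
    obtain ⟨n, hn⟩ := h
    refine le_antisymm (pay_le_one G T s (valid_pure hf) (valid_pure hg)) ?_
    rw [← hn]
    exact le_pay G T s (valid_pure hf) (valid_pure hg) n
  · left
    push Not at h
    refine le_antisymm (pay_le G T fun n => ?_) (pay_nonneg G T s (valid_pure hf) (valid_pure hg))
    rcases pure_reach G T n f g s hf hg with h' | h'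
    · exact h'.le
    · exact absurd h' (h n)

lemma nash_swap {G : Game S α β} {s : S} {σ : Strat S α β α} {τ : Strat S α β β}
    (h : Nash G s σ τ) : Nash G.swap s (swapS τ) (swapS σ) := by
  obtain ⟨h1, h2, h3, h4⟩ := h
  refine ⟨swapS_valid h2, swapS_valid h1, fun τ' hτ' => ?_, fun σ' hσ' => ?_⟩
  · have := h4 (swapS τ') (swapS_valid hτ')
    have e1 := pay_swap G G.T₂ σ (swapS τ') s
    have e2 := pay_swap G G.T₂ σ τ s
    rw [swapS_swapS] at e1
    show pay G.swap G.T₂ τ' (swapS σ) s ≤ pay G.swap G.T₂ (swapS τ) (swapS σ) s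
    rw [e1, e2]
    exact this
  · have := h3 (swapS σ') (swapS_valid hσ')
    have e1 := pay_swap G G.T₁ (swapS σ') τ s
    have e2 := pay_swap G G.T₁ σ τ s
    rw [swapS_swapS] at e1
    show pay G.swap G.T₁ (swapS τ) σ' s ≤ pay G.swap G.T₁ (swapS τ) (swapS σ) s
    rw [e1, e2]
    exact this

lemma nash_zero₁ {G : Game S α β} {s : S} {σ : Strat S α β α} {τ : Strat S α β β}
    (h : Nash G s σ τ) (h0 : pay G G.T₁ σ τ s = 0) : s ∈ Zero₁ G := by
  rintro c hc ⟨σ', hσ', H⟩
  have h1 := H τ h.2.1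
  have h2 := h.2.2.1 σ' hσ'
  linarith

lemma nash_zero₂ {G : Game S α β} {s : S} {σ : Strat S α β α} {τ : Strat S α β β}
    (h : Nash G s σ τ) (h0 : pay G G.T₂ σ τ s = 0) : s ∈ Zero₂ G := by
  rintro c hc ⟨τ', hτ', H⟩
  have h1 := H σ h.1
  have h2 := h.2.2.2 τ' hτ'
  linarith

lemma keep_path (G : Game S α β) (n : ℕ) : ∀ (σ : Strat S α β α) (τ : Strat S α β β) (s : S),
    Valid G.act₁ σ → Valid G.act₂ τ →
    (∀ τ' : Strat S α β β, Valid G.act₂ τ' → pay G G.T₂ σ τ' s ≤ 0) →
    0 < reach G G.T₁ n σ τ s → ∃ t ∈ G.T₁, Relation.ReflTransGen (Keep₁ G) s t := by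
  induction n with
  | zero =>
    intro σ τ s _ _ _ h
    by_cases hs : s ∈ G.T₁
    · exact ⟨s, hs, Relation.ReflTransGen.refl⟩
    · simp [reach, hs] at h
  | succ n ih =>
    intro σ τ s hσ hτ H h
    by_cases hs : s ∈ G.T₁
    · exact ⟨s, hs, Relation.ReflTransGen.refl⟩
    rw [reach_succ G hs] at h
    obtain ⟨a, ha, h1⟩ := Finset.exists_lt_of_sum_lt (s := G.act₁ s) (f := fun _ => (0:ℝ))
      (by simpa using h)
    have hσa : 0 < σ [] s a := by
      rcases ((hσ [] s).1 a).lt_or_eq with h' | h'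
      · exact h'
      · simp only [← h', zero_mul, lt_self_iff_false] at h1
    have h2 := (mul_pos_iff_of_pos_left hσa).1 h1
    obtain ⟨b, hb, h3⟩ := Finset.exists_lt_of_sum_lt (s := G.act₂ s) (f := fun _ => (0:ℝ))
      (by simpa using h2)
    have hτb : 0 < τ [] s b := by
      rcases ((hτ [] s).1 b).lt_or_eq with h' | h'
      · exact h'
      · simp only [← h', zero_mul, lt_self_iff_false] at h3
    have h4 := (mul_pos_iff_of_pos_left hτb).1 h3
    -- the strategy after `a` still holds player 2 at zero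
    have H' : ∀ b' ∈ G.act₂ s, ∀ τ'' : Strat S α β β, Valid G.act₂ τ'' →
        pay G G.T₂ (shift σ (s, a, b')) τ'' (G.δ s a b') ≤ 0 := by
      intro b' hb' τ'' hτ''
      by_contra hcon
      have hn : ∃ m, 0 < reach G G.T₂ m (shift σ (s, a, b')) τ'' (G.δ s a b') := by
        by_contra hno
        push Not at hno
        exact hcon (pay_le G _ hno)
      obtain ⟨m, hm⟩ := hn
      let τ' : Strat S α β β := fun h s' =>
        match h with
        | [] => if s' = s then (fun b => if b = b' then 1 else 0) else τ'' [] s'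
        | _ :: h' => τ'' h' s'
      have hτ' : Valid G.act₂ τ' := by
        intro l s'
        cases l with
        | nil =>
          show (∀ a, 0 ≤ (if s' = s then (fun b => if b = b' then (1:ℝ) else 0)
              else τ'' [] s') a) ∧ (∀ a, a ∉ G.act₂ s' →
              (if s' = s then (fun b => if b = b' then (1:ℝ) else 0) else τ'' [] s') a = 0) ∧
              ∑ a ∈ G.act₂ s', (if s' = s then (fun b => if b = b' then (1:ℝ) else 0)
              else τ'' [] s') a = 1
          by_cases he : s' = s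
          · subst he
            simp only [if_true]
            refine ⟨fun x => ?_, fun x hx => ?_, ?_⟩
            · split_ifs <;> norm_num
            · rw [if_neg]; rintro rfl; exact hx hb'
            · rw [Finset.sum_ite_eq' (G.act₂ s') b' (fun _ => (1:ℝ)), if_pos hb']
          · simp only [he, if_false]
            exact hτ'' [] s'
        | cons e l' => exact hτ'' l' s'
      have hpos : 0 < reach G G.T₂ (m + 1) σ τ' s := by
        by_cases hs2 : s ∈ G.T₂
        · rw [reach_of_mem G hs2]; norm_num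
        · rw [reach_succ G hs2]
          have e0 : τ' [] s = fun b => if b = b' then (1:ℝ) else 0 := if_pos rfl
          have e1 : ∀ e : S × α × β, shift τ' e = τ'' := fun e => rfl
          have hnn : ∀ a₁ ∈ G.act₁ s, 0 ≤ σ [] s a₁ * ∑ b ∈ G.act₂ s, τ' [] s b *
              reach G G.T₂ m (shift σ (s, a₁, b)) (shift τ' (s, a₁, b)) (G.δ s a₁ b) :=
            fun a₁ _ => mul_nonneg ((hσ [] s).1 a₁) (Finset.sum_nonneg fun b _ =>
              mul_nonneg ((hτ' [] s).1 b) (reach_nonneg G _ m _ (hσ.shift _) (hτ'.shift _)))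
          refine lt_of_lt_of_le ?_ (Finset.single_le_sum hnn ha)
          refine mul_pos hσa ?_
          have hnn2 : ∀ b₁ ∈ G.act₂ s, 0 ≤ τ' [] s b₁ *
              reach G G.T₂ m (shift σ (s, a, b₁)) (shift τ' (s, a, b₁)) (G.δ s a b₁) :=
            fun b₁ _ => mul_nonneg ((hτ' [] s).1 b₁)
              (reach_nonneg G _ m _ (hσ.shift _) (hτ'.shift _))
          refine lt_of_lt_of_le ?_ (Finset.single_le_sum hnn2 hb')
          rw [e0, e1]
          simp only [if_true, one_mul]
          exact hm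
      have := le_pay G G.T₂ s hσ hτ' (m + 1)
      have h5 := H τ' hτ'
      linarith
    obtain ⟨t, ht, p⟩ := ih _ _ _ (hσ.shift _) (hτ.shift _) (H' b hb) h4
    refine ⟨t, ht, Relation.ReflTransGen.head ⟨a, ha, fun b' hb' => ?_, b, hb, rfl⟩ p⟩
    rintro c hc ⟨τ'', hτ'', K⟩
    have h5 := K (shift σ (s, a, b')) (hσ.shift _)
    have h6 := H' b' hb' τ'' hτ''
    linarith

lemma cond_one_zero {G : Game S α β} {s : S} {σ : Strat S α β α} {τ : Strat S α β β}
    (h : Nash G s σ τ) (h1 : pay G G.T₁ σ τ s = 1) (h0 : pay G G.T₂ σ τ s = 0) : Cond G s := by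
  right; right; left
  refine ⟨nash_zero₂ h h0, ?_⟩
  have hn : ∃ m, 0 < reach G G.T₁ m σ τ s := by
    by_contra hno
    push Not at hno
    have := pay_le G _ hno
    linarith
  obtain ⟨m, hm⟩ := hn
  refine keep_path G m σ τ s h.1 h.2.1 (fun τ' hτ' => ?_) hm
  rw [← h0]
  exact h.2.2.2 τ' hτ'

lemma integral_cond {G : Game S α β} {s : S} {σ : Strat S α β α} {τ : Strat S α β β}
    (h : Nash G s σ τ) (h1 : pay G G.T₁ σ τ s = 0 ∨ pay G G.T₁ σ τ s = 1)
    (h2 : pay G G.T₂ σ τ s = 0 ∨ pay G G.T₂ σ τ s = 1) : Cond G s := by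
  rcases h1 with h1 | h1 <;> rcases h2 with h2 | h2
  · exact Or.inr (Or.inl ⟨nash_zero₁ h h1, nash_zero₂ h h2⟩)
  · apply cond_swap
    refine cond_one_zero (nash_swap h) ?_ ?_
    · rw [← h2]; exact pay_swap G G.T₂ σ τ s
    · rw [← h1]; exact pay_swap G G.T₁ σ τ s
  · exact cond_one_zero h h1 h2
  · left
    by_contra hnb
    have := pay_sum h.1 h.2.1 hnb
    linarith

/-- **Main result.**  Let `s₀` be a state of a deterministic two-player reach-a-set game with
finitely many states and finite action sets.  There is a Nash equilibrium from `s₀` with both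
payoffs in `{0, 1}` iff `Cond G s₀` holds iff there is a Nash equilibrium in pure strategies, and
`Cond G s₀` holds as soon as one of the players can guarantee to reach the own target from `s₀`
with probability arbitrarily close to one. -/
theorem result {S α β : Type} [Finite S] (G : Game S α β) (s₀ : S) :
    ((∃ (σ : Strat S α β α) (τ : Strat S α β β), Nash G s₀ σ τ ∧
        (pay G G.T₁ σ τ s₀ = 0 ∨ pay G G.T₁ σ τ s₀ = 1) ∧
        (pay G G.T₂ σ τ s₀ = 0 ∨ pay G G.T₂ σ τ s₀ = 1)) ↔ Cond G s₀) ∧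
    ((∃ (f : List (S × α × β) → S → α) (g : List (S × α × β) → S → β),
        (∀ h s, f h s ∈ G.act₁ s) ∧ (∀ h s, g h s ∈ G.act₂ s) ∧
        Nash G s₀ (pureS f) (pureS g)) ↔ Cond G s₀) ∧
    (((∀ ε > 0, Guar₁ G (1 - ε) s₀) ∨ (∀ ε > 0, Guar₂ G (1 - ε) s₀)) → Cond G s₀) := by
  have hp : Cond G s₀ → HasPure G s₀ := cond_hasPure
  refine ⟨⟨?_, fun h => ?_⟩, ⟨?_, fun h => hp h⟩, ?_⟩
  · rintro ⟨σ, τ, h, h1, h2⟩
    exact integral_cond h h1 h2
  · obtain ⟨f, g, hf, hg, hN⟩ := hp h
    exact ⟨pureS f, pureS g, hN, pure_pay _ _ hf hg, pure_pay _ _ hf hg⟩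
  · rintro ⟨f, g, hf, hg, hN⟩
    exact integral_cond hN (pure_pay _ _ hf hg) (pure_pay _ _ hf hg)
  · rintro (h | h)
    · exact cond_of_W h
    · exact cond_swap (cond_of_W (G := G.swap) fun ε hε => guar_swap (h ε hε))

end Pool.Agent.Results.MP_0c5457_lc.IntegralEquilibria
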